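import Pool.Agent.Y517.PT.Lin
import Mathlib.LinearAlgebra.Lagrange

set_option autoImplicit false

/-!
# Algebraically independent elements `xi`, `d`: polynomials in `xi` with coefficients algebraic over
`k(d)` whose value is algebraic over `k(xi)`
-/

namespace Pool.Agent.R498.AU

open Pool.Agent.TH693.PP Pool.Agent.TH693.QQ Pool.Agent.H397R2.PP
open Pool.Agent.Y517.PT (Kc mem_Kc eq_zero_of_root)

section

variable {k L : Type} [Field k] [Field L] [Algebra k L] [IsAlgClosed L]

/-- **specialization**: if `xi` is transcendental over `k(d)`, `Q` has coefficients algebraic over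
`k(d)` and `Q(xi)` is algebraic over `k(xi)`, then the coefficients of `Q` are algebraic over `k` -/
theorem spec {xi d : L} (hxi : xi ∉ QE2.cl k {d}) (Q : Polynomial L)
    (hQ : ∀ n, Q.coeff n ∈ QE2.cl k {d}) (G : Polynomial (Polynomial k)) (hG : G ≠ 0)
    (hroot : G.eval₂ (Polynomial.aeval xi : Polynomial k →ₐ[k] L).toRingHom (Q.eval xi) = 0)
    (n : ℕ) : IsAlgebraic k (Q.coeff n) := by
  classical
  set T : Polynomial L := G.eval₂ (Polynomial.mapRingHom (algebraMap k L)) Q with hT
  have hTe : ∀ z : L, T.eval z =
      G.eval₂ (Polynomial.aeval z : Polynomial k →ₐ[k] L).toRingHom (Q.eval z) := by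
    intro z
    have h1 := Polynomial.hom_eval₂ G (Polynomial.mapRingHom (algebraMap k L))
      (Polynomial.evalRingHom z) Q
    have h2 : (Polynomial.evalRingHom z).comp (Polynomial.mapRingHom (algebraMap k L)) =
        (Polynomial.aeval z : Polynomial k →ₐ[k] L).toRingHom := by
      apply RingHom.ext
      intro f
      change Polynomial.eval z (f.map (algebraMap k L)) = Polynomial.aeval z f
      rw [Polynomial.eval_map]
      rfl
    rw [h2] at h1
    exact h1
  have hlQ : Q ∈ Polynomial.lifts (algebraMap (Kc k d) L) := by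
    rw [Polynomial.lifts_iff_coeff_lifts]
    intro n
    exact ⟨⟨Q.coeff n, mem_Kc.2 (hQ n)⟩, rfl⟩
  have hlT : T ∈ Polynomial.lifts (algebraMap (Kc k d) L) := by
    rw [hT, Polynomial.eval₂_eq_sum_range]
    refine sum_mem fun i _ => mul_mem ?_ (pow_mem hlQ i)
    rw [Polynomial.lifts_iff_coeff_lifts]
    intro n
    change (Polynomial.map (algebraMap k L) (G.coeff i)).coeff n ∈ _
    rw [Polynomial.coeff_map]
    have h1 : algebraMap k L ((G.coeff i).coeff n) = algebraMap (Algebra.adjoin k {d}) L
        (algebraMap k (Algebra.adjoin k {d}) ((G.coeff i).coeff n)) := rfl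
    rw [h1]
    exact ⟨⟨_, Subalgebra.algebraMap_mem (Kc k d)
      (algebraMap k (Algebra.adjoin k {d}) ((G.coeff i).coeff n))⟩, rfl⟩
  have hT0 : T = 0 := by
    apply eq_zero_of_root hxi T
    · intro n
      obtain ⟨T', hT'⟩ := (Polynomial.mem_lifts T).1 hlT
      rw [← hT', Polynomial.coeff_map, ← mem_Kc]
      exact (T'.coeff n).2
    · rw [hTe]
      exact hroot
  have hz : ∀ z : L, G.eval₂ (Polynomial.aeval z : Polynomial k →ₐ[k] L).toRingHom (Q.eval z) = 0 :=
    fun z => by rw [← hTe, hT0, Polynomial.eval_zero]
  -- the field of constants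
  set κ : IntermediateField k L := algebraicClosure k L with hκ
  have hac : IsAlgClosed κ := by
    exact (algebraicClosure.isAlgClosure k L).isAlgClosed
  have hinf : Infinite κ := IsAlgClosed.instInfinite
  set l : Polynomial k := G.leadingCoeff with hl
  have hl0 : l ≠ 0 := Polynomial.leadingCoeff_ne_zero.2 hG
  have hval : ∀ z : κ, Polynomial.aeval z l ≠ 0 → Q.eval (z : L) ∈ κ := by
    intro z hzl
    set G' : Polynomial κ := G.map (Polynomial.aeval z : Polynomial k →ₐ[k] κ).toRingHom with hG'
    have hG'0 : G' ≠ 0 := by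
      intro h0
      have h1 := congrArg (fun p : Polynomial κ => p.coeff G.natDegree) h0
      simp only [hG', Polynomial.coeff_map, Polynomial.coeff_zero] at h1
      exact hzl h1
    have h2 : IsAlgebraic κ (Q.eval (z : L)) := by
      refine ⟨G', hG'0, ?_⟩
      rw [Polynomial.aeval_def, hG', Polynomial.eval₂_map]
      have h3 : (algebraMap κ L).comp (Polynomial.aeval z : Polynomial k →ₐ[k] κ).toRingHom =
          (Polynomial.aeval (z : L) : Polynomial k →ₐ[k] L).toRingHom := by
        apply RingHom.ext
        intro f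
        change algebraMap κ L (Polynomial.aeval z f) = Polynomial.aeval (z : L) f
        exact (Polynomial.aeval_algebraMap_apply L z f).symm
      rw [h3]
      exact hz z
    have h4 : IsAlgebraic k (Q.eval (z : L)) := h2.restrictScalars k
    exact mem_algebraicClosure_iff.2 h4
  -- enough points
  set bad : Set κ := {z | Polynomial.aeval z l = 0} with hbad
  have hbadf : bad.Finite := by
    have h1 : l.map (algebraMap k κ) ≠ 0 :=
      (Polynomial.map_ne_zero_iff (algebraMap k κ).injective).2 hl0
    refine ((l.map (algebraMap k κ)).roots.toFinset.finite_toSet).subset ?_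
    intro z hz
    rw [Finset.mem_coe, Multiset.mem_toFinset, Polynomial.mem_roots h1]
    change Polynomial.eval z _ = 0
    rw [Polynomial.eval_map]
    exact hz
  obtain ⟨s, hs, hcard⟩ := hbadf.infinite_compl.exists_subset_card_eq (Q.natDegree + 1)
  set v : κ → κ := fun z => if h : Q.eval (z : L) ∈ κ then ⟨Q.eval (z : L), h⟩ else 0 with hv
  have hvs : ∀ z ∈ s, (v z : L) = Q.eval (z : L) := by
    intro z hz
    have h1 : Q.eval (z : L) ∈ κ := hval z (hs hz)
    rw [hv]
    simp only
    rw [dif_pos h1]
  set P0 : Polynomial κ := Lagrange.interpolate s id v with hP0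
  have hdeg : P0.degree < s.card := Lagrange.degree_interpolate_lt v (Function.injective_id.injOn)
  have hPQ : P0.map (algebraMap κ L) = Q := by
    refine Polynomial.eq_of_degrees_lt_of_eval_finset_eq
      (s.map ⟨algebraMap κ L, (algebraMap κ L).injective⟩) ?_ ?_ ?_
    · rw [Finset.card_map]
      exact (Polynomial.degree_map_le).trans_lt hdeg
    · rw [Finset.card_map, hcard]
      refine Polynomial.degree_le_natDegree.trans_lt ?_
      exact_mod_cast Nat.lt_succ_self _
    · intro x hx
      obtain ⟨z, hz, rfl⟩ := Finset.mem_map.1 hx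
      change Polynomial.eval (algebraMap κ L z) _ = Polynomial.eval (z : L) Q
      rw [Polynomial.eval_map, Polynomial.eval₂_at_apply]
      have h1 : Polynomial.eval z P0 = v z :=
        Lagrange.eval_interpolate_at_node v (Function.injective_id.injOn) hz
      rw [h1]
      exact hvs z hz
  rw [← hPQ, Polynomial.coeff_map]
  exact mem_algebraicClosure_iff.1 (P0.coeff n).2

end

end Pool.Agent.R498.AU
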