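import Pool.Agent.R498.AU.A1
import Pool.Agent.Y627.PT.Stm2

set_option autoImplicit false

/-!
# A relation with an algebraic right hand side splits according to the powers of `X ^ (1 / 24)`
(after `Y627/PT/Lin0`)
-/

namespace Pool.Agent.R498.AU

open PowerSeries Pool.Agent.TH693.PP Pool.Agent.TH693.QQ Pool.Agent.H397R2.PP
open Pool.Agent.Y517.PT Pool.Agent.Y627.PT

theorem mem_cl_of_alg {k L : Type} [Field k] [Field L] [Algebra k L] {y : L} (h : IsAlgebraic k y)
    (s : Set L) : y ∈ QE2.cl k s := by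
  rw [QE2.mem_cl]
  exact h.extendScalars (algebraMap k (Algebra.adjoin k s)).injective

theorem algX_iff {g : S} : AlgX g ↔ T5.jj g ∈ QE2.cl (ZMod 2) {T5.jj X} :=
  ⟨T5.mem_of_algX, T5.algX_of_mem⟩

theorem lin1 (hDb : ¬ AlgX Db) {J : Type} [Fintype J] (g : J → S) (t : J → ℕ)
    (hAL : ∀ j, ALX (g j) (t j)) (a : J → F) (β : S) (hβ : AlgX β)
    (hrel : ∑ j, io (a j) * g j = β) (E : ℕ) :
    AlgX (∑ j, (if t j ≤ E ∧ 24 ∣ E - t j then
      io (Polynomial.monomial ((E - t j) / 24) ((a j).coeff ((E - t j) / 24))) * g j else 0)) := by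
  classical
  obtain ⟨xi, hxi⟩ : ∃ xi : Om, xi ^ 24 = e (T5.jj X) :=
    IsAlgClosed.exists_pow_nat_eq (e (T5.jj X)) (by norm_num)
  set d : Om := e (T5.jj Db) with hd
  have hX : e (T5.jj X) ∉ QE2.cl (ZMod 2) {d} := fun h => X_notMem hDb (cl_comap e h)
  have hxiK : xi ∉ QE2.cl (ZMod 2) {d} := fun h => hX (hxi ▸ QE2.pow_mem' h 24)
  have hxi0 : xi ≠ 0 := by
    rintro rfl
    rw [zero_pow (by norm_num)] at hxi
    have h1 : T5.jj X = 0 := (map_eq_zero e.toRingHom).1 hxi.symm
    rw [map_eq_zero_iff T5.jj T5.jj_inj] at h1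
    exact PowerSeries.X_ne_zero h1
  set de : J → Om := fun j => e (T5.jj (g j)) / xi ^ t j with hde
  have hdeK : ∀ j, de j ∈ QE2.cl (ZMod 2) {d} := by
    intro j
    apply QE2.of_pow_mem (n := 24) (by norm_num)
    have h1 := cl_map e (T5.mem_of_AL (hAL j))
    have h2 : de j ^ 24 = e (algebraMap Sk Lk (ik (g j)) ^ 24 /
        algebraMap Sk Lk X ^ t j) := by
      rw [map_div₀, map_pow, map_pow, hde]
      simp only
      rw [div_pow, ← pow_mul, mul_comm (t j) 24, pow_mul, hxi, T5.jj_X]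
      rfl
    rw [h2]
    exact h1
  have hdex : ∀ j, de j * xi ^ t j = e (T5.jj (g j)) := by
    intro j
    rw [hde]
    exact div_mul_cancel₀ _ (pow_ne_zero _ hxi0)
  -- the polynomial
  set q : F → Polynomial Om := fun f => Polynomial.expand Om 24 (f.map (algebraMap (ZMod 2) Om))
    with hq
  set Q : Polynomial Om :=
    ∑ j, Polynomial.C (de j) * (Polynomial.X ^ t j * q (a j)) with hQ
  have hqK : ∀ (f : F) (n : ℕ), (q f).coeff n ∈ Kc (ZMod 2) d := by
    intro f n
    rw [hq]
    simp only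
    rw [Polynomial.coeff_expand (by norm_num)]
    split_ifs with h
    · rw [Polynomial.coeff_map]
      have h1 : algebraMap (ZMod 2) Om (f.coeff (n / 24)) =
        algebraMap (Algebra.adjoin (ZMod 2) {d}) Om
          (algebraMap (ZMod 2) (Algebra.adjoin (ZMod 2) {d}) (f.coeff (n / 24))) := rfl
      rw [h1]
      exact Subalgebra.algebraMap_mem _ _
    · exact Subalgebra.zero_mem _
  have hQK : ∀ n, Q.coeff n ∈ QE2.cl (ZMod 2) {d} := by
    intro n
    rw [← mem_Kc, hQ, Polynomial.finsetSum_coeff]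
    refine Subalgebra.sum_mem _ fun j _ => ?_
    rw [Polynomial.coeff_C_mul, Polynomial.coeff_X_pow_mul']
    refine Subalgebra.mul_mem _ (mem_Kc.2 (hdeK j)) ?_
    split_ifs
    · exact hqK _ _
    · exact Subalgebra.zero_mem _
  have hQe : Q.eval xi = e (T5.jj β) := by
    rw [hQ, Polynomial.eval_finsetSum]
    have h1 : ∀ j, (Polynomial.C (de j) * (Polynomial.X ^ t j * q (a j))).eval xi =
        e (T5.jj (io (a j) * g j)) := by
      intro j
      rw [Polynomial.eval_mul, Polynomial.eval_mul, Polynomial.eval_C, Polynomial.eval_pow,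
        Polynomial.eval_X, ← mul_assoc, hdex, map_mul, map_mul, mul_comm]
      congr 1
      exact (eval_io xi hxi (a j)).symm
    rw [Finset.sum_congr rfl (fun j _ => h1 j), ← map_sum, ← map_sum, hrel]
  -- algebraic coefficients
  obtain ⟨H, hH0, hH⟩ := hβ
  have hcoef : IsAlgebraic (ZMod 2) (Q.coeff E) := by
    refine spec hxiK Q hQK (H.map (Polynomial.expand (ZMod 2) 24).toRingHom) ?_ ?_ E
    · refine (Polynomial.map_ne_zero_iff ?_).2 hH0
      exact Polynomial.expand_injective (by norm_num)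
    · rw [Polynomial.eval₂_map, hQe]
      have h1 : (Polynomial.aeval xi : Polynomial (ZMod 2) →ₐ[ZMod 2] Om).toRingHom.comp
          (Polynomial.expand (ZMod 2) 24).toRingHom =
          ((e : Lk →+* Om).comp ((T5.jj : S →+* Lk).comp io)) := by
        apply RingHom.ext
        intro f
        change Polynomial.aeval xi (Polynomial.expand (ZMod 2) 24 f) = e (T5.jj (f : S))
        rw [eval_io xi hxi f, Polynomial.expand_eval, Polynomial.expand_aeval, Polynomial.eval_map]
        rfl
      rw [h1]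
      have h2 := congrArg (fun z : S => e (T5.jj z)) hH
      simp only [map_zero] at h2
      rw [← h2]
      exact (Polynomial.hom_eval₂ H io ((e : Lk →+* Om).comp (T5.jj : S →+* Lk)) β).symm
  -- the sum
  have hmon : ∀ (n : ℕ) (c : ZMod 2), e (T5.jj (io (Polynomial.monomial n c))) =
      algebraMap (ZMod 2) Om c * xi ^ (24 * n) := by
    intro n c
    rw [← Polynomial.C_mul_X_pow_eq_monomial, map_mul, map_pow, QE2.io_C, QE2.io_X, map_mul,
      map_mul, map_pow, map_pow, T5.jj.commutes, e.commutes, pow_mul, hxi]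
  have h1 : ∀ j, e (T5.jj (if t j ≤ E ∧ 24 ∣ E - t j then
      io (Polynomial.monomial ((E - t j) / 24) ((a j).coeff ((E - t j) / 24))) * g j else 0)) =
      (Polynomial.C (de j) * (Polynomial.X ^ t j * q (a j))).coeff E * xi ^ E := by
    intro j
    rw [Polynomial.coeff_C_mul, Polynomial.coeff_X_pow_mul']
    by_cases h2 : t j ≤ E
    · rw [if_pos h2, hq]
      simp only
      rw [Polynomial.coeff_expand (by norm_num)]
      by_cases h3 : 24 ∣ E - t j
      · obtain ⟨k, hk⟩ := h3
        rw [if_pos ⟨h2, ⟨k, hk⟩⟩, if_pos ⟨k, hk⟩, hk, Nat.mul_div_cancel_left k (by norm_num),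
          Polynomial.coeff_map, map_mul, map_mul, hmon, ← hdex]
        have hE : E = 24 * k + t j := by omega
        rw [hE, pow_add]
        ring
      · rw [if_neg (fun h4 => h3 h4.2), if_neg h3, map_zero, map_zero, mul_zero, zero_mul]
    · rw [if_neg (fun h4 => h2 h4.1), if_neg h2, map_zero, map_zero, mul_zero, zero_mul]
  apply T5.algX_of_mem
  apply cl_comap e
  rw [map_sum, map_sum, Finset.sum_congr rfl (fun j _ => h1 j), ← Finset.sum_mul,
    ← Polynomial.finsetSum_coeff, ← hQ]
  refine QE2.mul_mem' (mem_cl_of_alg hcoef _) (QE2.pow_mem' ?_ E)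
  apply QE2.of_pow_mem (n := 24) (by norm_num)
  rw [hxi]
  exact QE2.self_mem (Set.mem_singleton _)

/-! ### algebraic functions -/

theorem algX_add {f g : S} (hf : AlgX f) (hg : AlgX g) : AlgX (f + g) := by
  rw [algX_iff] at hf hg ⊢
  rw [map_add, ← mem_Kc]
  exact Subalgebra.add_mem _ (mem_Kc.2 hf) (mem_Kc.2 hg)

theorem algX_mul {f g : S} (hf : AlgX f) (hg : AlgX g) : AlgX (f * g) := by
  rw [algX_iff] at hf hg ⊢
  rw [map_mul]
  exact QE2.mul_mem' hf hg

theorem algX_io (f : F) : AlgX (io f) := by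
  refine ⟨Polynomial.X - Polynomial.C f, Polynomial.X_sub_C_ne_zero f, ?_⟩
  rw [map_sub, QE2.evp_X, QE2.evp_C, sub_self]

theorem algX_zero : AlgX 0 := by
  have := algX_io 0
  rwa [map_zero] at this

theorem algX_sum {ι : Type} (A : Finset ι) (f : ι → S) (h : ∀ i ∈ A, AlgX (f i)) :
    AlgX (∑ i ∈ A, f i) := by
  classical
  induction A using Finset.induction_on with
  | empty => rw [Finset.sum_empty]; exact algX_zero
  | insert i A hi ih =>
    rw [Finset.sum_insert hi]
    exact algX_add (h i (Finset.mem_insert_self i A))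
      (ih fun j hj => h j (Finset.mem_insert_of_mem hj))

theorem algX_of_mul {f g : S} (hf : AlgX f) (hf0 : f ≠ 0) (h : AlgX (f * g)) : AlgX g := by
  rw [algX_iff] at hf h ⊢
  have h1 := QE2.mul_mem' (QE2.inv_mem' hf) h
  rwa [map_mul, ← mul_assoc, inv_mul_cancel₀, one_mul] at h1
  rw [Ne, map_eq_zero_iff T5.jj T5.jj_inj]
  exact hf0

theorem algX_X_pow (n : ℕ) : AlgX (X ^ n : S) := by
  have := algX_io (Polynomial.X ^ n)
  rwa [map_pow, QE2.io_X] at this

end Pool.Agent.R498.AU
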