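import Pool.Agent.R498.AU.A2
import Pool.Agent.Y627.PT.Gen

set_option autoImplicit false

/-!
# Dilates and progressions, relations with an algebraic right hand side (after `Y627/PT/Gen`)
-/

namespace Pool.Agent.R498.AU

open PowerSeries Pool.Agent.TH693.PP Pool.Agent.TH693.QQ Pool.Agent.H397R2.PP
open Pool.Agent.Y517.PT Pool.Agent.Y627.PT

theorem ph_jj (q : ℕ) (hq : q ≠ 0) (g : S) : ph q hq (T5.jj g) = T5.jj (ex q hq g) := by
  rw [T5.jj_apply, ph_alg, ph0_ik, T5.jj_apply]

theorem algX_ex {q : ℕ} (hq : q ≠ 0) {u : S} (h : AlgX u) : AlgX (ex q hq u) := by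
  rw [algX_iff] at h ⊢
  have h1 := cl_map (ph q hq) h
  have hX : ex q hq X = X ^ q := PowerSeries.expand_X q hq
  rw [ph_jj, ph_jj, hX, map_pow] at h1
  refine QE2.cl_cl ?_ h1
  intro x hx
  rw [Set.mem_singleton_iff] at hx
  rw [hx]
  exact QE2.pow_mem' (QE2.self_mem (Set.mem_singleton _)) q

theorem algX_of_ex {q : ℕ} (hq : q ≠ 0) {u : S} (h : AlgX (ex q hq u)) : AlgX u := by
  rw [algX_iff] at h ⊢
  apply cl_comap (ph q hq)
  have hX : ex q hq X = X ^ q := PowerSeries.expand_X q hq
  rw [ph_jj, ph_jj, hX, map_pow]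
  refine QE2.cl_cl ?_ h
  intro x hx
  rw [Set.mem_singleton_iff] at hx
  rw [hx]
  exact QE2.of_pow_mem (Nat.pos_of_ne_zero hq) (QE2.self_mem (Set.mem_singleton _))

/-- a nonzero function of type `AZ` with `24 ∤ s` is transcendental -/
theorem eq_zero_of_az {V : S} {τ : ℤ} (h24 : ¬ (24 : ℤ) ∣ τ) (hV : AZ (T5.jj V) τ) (hX : AlgX V) :
    V = 0 := by
  by_contra hne
  obtain ⟨k, hk⟩ : ∃ k : ℕ, 0 ≤ 24 * (k : ℤ) + τ := ⟨τ.natAbs, by omega⟩
  obtain ⟨t, ht⟩ := Int.eq_ofNat_of_zero_le hk
  have h1 : AZ (T5.jj (X ^ k * V)) (t : ℤ) := by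
    have h2 := az_mul (az_x k) hV
    rw [map_mul, map_pow, ← ht]
    exact h2
  have h3 := (t5 QC.qc t (X ^ k * V) (by
    intro h4
    apply h24
    have h5 : (24 : ℤ) ∣ (t : ℤ) := by exact_mod_cast h4
    rw [← ht] at h5
    exact (dvd_add_right (Dvd.intro (k : ℤ) rfl)).1 h5) (mul_ne_zero (pow_ne_zero _ X_ne) hne)
    (alx_of_az h1)).2
  exact h3 (algX_mul (algX_X_pow k) hX)

theorem lin_gen {J : Type} [Fintype J] (G : J → S) (τ : J → ℤ) (hG : ∀ j, Sec (G j) (τ j))
    (m i : J → ℕ) (B M : ℕ) (hB0 : B ≠ 0) (hm : ∀ j, m j ∣ B) (hi : ∀ j, i j < m j) (hM : 0 < M)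
    (j1 : J) (h24 : ¬ (24 : ℤ) ∣ τ j1)
    (hexp : ∀ j', (24 * m j1 * m j' : ℤ) ∣ m j' * (τ j1 - 24 * i j1) - m j1 * (τ j' - 24 * i j') →
      j1 = j')
    (c : J × Fin M → F) (β : S) (hβ : AlgX β)
    (hrel : ∑ j : J × Fin M, io (c j) * proj M j.2 (fn (G j.1) (m j.1) (i j.1)) = β)
    (r0 : Fin M) (hj0 : proj M r0 (fn (G j1) (m j1) (i j1)) ≠ 0) : c (j1, r0) = 0 := by
  classical
  have hBp : 0 < B := Nat.pos_of_ne_zero hB0
  have hX : ex B hB0 X = X ^ B := PowerSeries.expand_X B hB0
  choose e he using hm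
  have he0 : ∀ j, e j ≠ 0 := by
    intro j h
    have := he j
    rw [h, mul_zero] at this
    exact hB0 this
  have hm0 : ∀ j, 0 < m j := fun j => by have := hi j; omega
  have hie : ∀ j, i j * e j < B := by
    intro j
    rw [he j]
    exact Nat.mul_lt_mul_of_pos_right (hi j) (Nat.pos_of_ne_zero (he0 j))
  -- common shift
  obtain ⟨k0, hk0⟩ : ∃ k0 : ℕ, ∀ j, 0 ≤ 24 * (k0 : ℤ) + e j * τ j := by
    refine ⟨∑ j, (e j * τ j).natAbs, fun j => ?_⟩
    have h1 : (e j * τ j).natAbs ≤ ∑ j, (e j * τ j).natAbs :=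
      Finset.single_le_sum (f := fun j => (e j * τ j).natAbs) (fun _ _ => Nat.zero_le _)
        (Finset.mem_univ j)
    omega
  set s : J → ℕ := fun j => (24 * (k0 : ℤ) + e j * τ j).toNat with hs
  have hsz : ∀ j, (s j : ℤ) = 24 * k0 + e j * τ j := fun j => Int.toNat_of_nonneg (hk0 j)
  set g : J × Fin M → S := fun j =>
    X ^ k0 * ex (e j.1) (he0 j.1) (proj (m j.1 * M) (m j.1 * j.2 + i j.1) (G j.1)) with hg
  have hgX : ∀ j : J × Fin M, X ^ k0 * (X ^ (i j.1 * e j.1) *
      ex B hB0 (proj M j.2 (fn (G j.1) (m j.1) (i j.1)))) = g j := fun j => by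
    rw [fn_rel (G j.1) (m j.1) (i j.1) (e j.1) j.2 M B (by rw [he j.1]; ring) hB0 (he0 j.1) (hi j.1)]
  have hALX : ∀ j : J × Fin M, ALX (g j) (s j.1) := by
    intro j
    apply alx_of_az
    rw [hsz, hg]
    simp only
    rw [map_mul, map_pow]
    exact az_mul (az_x k0) (az_ex (he0 j.1) (hG j.1 _ _ (Nat.mul_pos (hm0 j.1) hM)))
  -- the polynomials
  set A : J × Fin M → F := fun j =>
    Polynomial.X ^ (B - i j.1 * e j.1) * Polynomial.expand (ZMod 2) B (c j) with hA
  set β' : S := X ^ (B + k0) * ex B hB0 β with hβ'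
  have hrel2 : ∑ j, io (A j) * g j = β' := by
    have h5 : ∀ j : J × Fin M, io (A j) * g j = X ^ (B + k0) *
        ex B hB0 (io (c j) * proj M j.2 (fn (G j.1) (m j.1) (i j.1))) := by
      intro j
      rw [← hgX, hA]
      simp only
      rw [map_mul, map_pow, QE2.io_X, ← ex_io B hB0, map_mul]
      have h6 : (X : S) ^ (B + k0) = X ^ (B - i j.1 * e j.1) * X ^ (i j.1 * e j.1) * X ^ k0 := by
        rw [← pow_add, ← pow_add]
        congr 1
        have := hie j.1
        omega
      rw [h6]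
      ring
    rw [Finset.sum_congr rfl fun j _ => h5 j, ← Finset.mul_sum, ← map_sum, hrel]
  -- coefficients of `c j0`
  apply Polynomial.ext
  intro n0
  rw [Polynomial.coeff_zero]
  set q0 : ℕ := B - i j1 * e j1 + B * n0 with hq0
  have h6 := lin1 QC.qc g (fun j => s j.1) hALX A β'
    (algX_mul (algX_X_pow _) (algX_ex hB0 hβ)) hrel2 (24 * q0 + s j1)
  have hBz : ∀ j, (B : ℤ) = m j * e j := fun j => by rw [he j]; push_cast; ring
  have hqz : ∀ (j : J) (n : ℕ), ((B - i j * e j + B * n : ℕ) : ℤ) = B - i j * e j + B * n := by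
    intro j n
    push_cast [Nat.cast_sub (hie j).le]
    ring
  have he0z : ∀ j, (e j : ℤ) ≠ 0 := fun j => by exact_mod_cast he0 j
  have hm0z : ∀ j, (m j : ℤ) ≠ 0 := fun j => by exact_mod_cast (hm0 j).ne'
  -- the terms
  have hterm : ∀ j : J × Fin M, (if s j.1 ≤ 24 * q0 + s j1 ∧
      24 ∣ 24 * q0 + s j1 - s j.1 then
        io (Polynomial.monomial ((24 * q0 + s j1 - s j.1) / 24)
          ((A j).coeff ((24 * q0 + s j1 - s j.1) / 24))) * g j else 0) =
      if j.1 = j1 then X ^ q0 * (X ^ k0 * X ^ (i j1 * e j1)) *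
        ex B hB0 (algebraMap (ZMod 2) S ((c j).coeff n0) *
          proj M j.2 (fn (G j1) (m j1) (i j1))) else 0 := by
    intro j
    by_cases hj : j.1 = j1
    · rw [if_pos hj, hj, Nat.add_sub_cancel, Nat.mul_div_cancel_left _ (by norm_num : 0 < 24),
        if_pos ⟨by omega, Dvd.intro q0 rfl⟩, hA]
      simp only
      rw [hj, hq0, add_comm (B - i j1 * e j1), Polynomial.coeff_X_pow_mul,
        mul_comm B n0, Polynomial.coeff_expand_mul hBp]
      rw [← Polynomial.C_mul_X_pow_eq_monomial, map_mul, map_pow, QE2.io_X, QE2.io_C, ← hgX, hj,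
        map_mul, AlgHom.commutes]
      ring
    · rw [if_neg hj]
      split_ifs with hcond
      · obtain ⟨hle, q, hq⟩ := hcond
        rw [hq, Nat.mul_div_cancel_left _ (by norm_num : 0 < 24)]
        have h7 : (A j).coeff q = 0 := by
          rw [hA]
          simp only
          rw [Polynomial.coeff_X_pow_mul']
          split_ifs with h8
          · rw [Polynomial.coeff_expand hBp]
            split_ifs with h9
            · exfalso
              obtain ⟨n, hn⟩ := h9
              have hqq : (q : ℤ) = B - i j.1 * e j.1 + B * n := by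
                rw [← hqz]
                congr 1
                omega
              have hqq0 : (q0 : ℤ) = B - i j1 * e j1 + B * n0 := hqz _ _
              have hq' : (24 : ℤ) * q0 + s j1 = 24 * q + s j.1 := by
                have : 24 * q0 + s j1 = 24 * q + s j.1 := by omega
                exact_mod_cast this
              rw [hsz, hsz, hqq, hqq0] at hq'
              apply hj
              symm
              apply hexp
              refine ⟨n - n0, ?_⟩
              apply mul_left_cancel₀ (mul_ne_zero (he0z j1) (he0z j.1))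
              have b1 := hBz j1
              have b2 := hBz j.1
              have b3 : (e j1 : ℤ) * (τ j1 - 24 * i j1) - e j.1 * (τ j.1 - 24 * i j.1) =
                  24 * B * (n - n0) := by linear_combination hq'
              have b4 : (e j1 : ℤ) * e j.1 * (m j.1 * (τ j1 - 24 * i j1) -
                  m j1 * (τ j.1 - 24 * i j.1)) =
                  (m j.1 * e j.1) * (e j1 * (τ j1 - 24 * i j1)) -
                  (m j1 * e j1) * (e j.1 * (τ j.1 - 24 * i j.1)) := by ring
              rw [b4, ← b1, ← b2, ← mul_sub, b3]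
              have b5 : (e j1 : ℤ) * e j.1 * (24 * m j1 * m j.1 * (n - n0)) =
                  (m j1 * e j1) * (24 * (m j.1 * e j.1) * (n - n0)) := by ring
              rw [b5, ← b1, ← b2]
            · rfl
          · rfl
        rw [h7, map_zero, map_zero, zero_mul]
      · rfl
  rw [Finset.sum_congr rfl fun j _ => hterm j] at h6
  set w : S := ∑ j : J × Fin M, (if j.1 = j1 then algebraMap (ZMod 2) S ((c j).coeff n0) *
        proj M j.2 (fn (G j1) (m j1) (i j1)) else 0) with hw
  have h7 : AlgX (X ^ q0 * (X ^ k0 * X ^ (i j1 * e j1)) * ex B hB0 w) := by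
    convert h6 using 1
    rw [hw, map_sum, Finset.mul_sum]
    refine Finset.sum_congr rfl fun j _ => ?_
    split_ifs
    · rfl
    · rw [map_zero, mul_zero]
  have hwX : AlgX w := by
    apply algX_of_ex hB0
    refine algX_of_mul ?_ ?_ h7
    · exact algX_mul (algX_X_pow _) (algX_mul (algX_X_pow _) (algX_X_pow _))
    · exact mul_ne_zero (pow_ne_zero _ X_ne)
        (mul_ne_zero (pow_ne_zero _ X_ne) (pow_ne_zero _ X_ne))
  -- `w` is zero
  have hV : X ^ (i j1 * 1) * ex (m j1) (hm0 j1).ne' w = ∑ j : J × Fin M,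
      (if j.1 = j1 then algebraMap (ZMod 2) S ((c j).coeff n0) *
        proj (m j1 * M) (m j1 * j.2 + i j1) (G j1) else 0) := by
    rw [hw, map_sum, Finset.mul_sum]
    refine Finset.sum_congr rfl fun j _ => ?_
    split_ifs
    · have h8 := fn_rel (G j1) (m j1) (i j1) 1 j.2 M (m j1) (one_mul _).symm (hm0 j1).ne'
        one_ne_zero (hi j1)
      rw [ex_one] at h8
      rw [← h8, map_mul, AlgHom.commutes]
      ring
    · rw [map_zero, mul_zero]
  have hV0 : X ^ (i j1 * 1) * ex (m j1) (hm0 j1).ne' w = 0 := by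
    refine eq_zero_of_az h24 ?_ (algX_mul (algX_X_pow _) (algX_ex _ hwX))
    rw [hV, map_sum]
    refine az_sum _ _ _ fun j _ => ?_
    split_ifs
    · rw [map_mul, AlgHom.commutes]
      have h9 := az_mul (az_cl (mem_cl_of_alg (isAlgebraic_algebraMap (R := ZMod 2) (A := Lk)
        ((c j).coeff n0)) {T5.jj Db})) (hG j1 (m j1 * M) (m j1 * j.2 + i j1)
          (Nat.mul_pos (hm0 j1) hM))
      rwa [zero_add] at h9
    · rw [map_zero]
      exact az_zero _
  have h8 := (mul_eq_zero.1 hV0).resolve_left (pow_ne_zero _ X_ne)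
  have h9 : w = 0 := ex_inj (m j1) (hm0 j1).ne' (h8.trans (map_zero _).symm)
  -- disjoint supports
  obtain ⟨n, hn⟩ : ∃ n, coeff n (proj M r0 (fn (G j1) (m j1) (i j1))) ≠ 0 := by
    by_contra hcon
    push Not at hcon
    exact hj0 (PowerSeries.ext (fun n => by rw [map_zero]; exact hcon n))
  have hnr : n % M = r0 % M := by
    by_contra h
    apply hn
    rw [proj, coeff_mk, if_neg h]
  have h10 := congrArg (coeff n) h9
  rw [hw, map_sum, map_zero, Finset.sum_eq_single (j1, r0)] at h10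
  · rw [if_pos rfl, ← Algebra.smul_def, map_smul, smul_eq_mul] at h10
    exact (mul_eq_zero.1 h10).resolve_right hn
  · intro j _ hjj
    split_ifs with h11
    · rw [← Algebra.smul_def, map_smul, smul_eq_mul, proj, coeff_mk, if_neg, mul_zero]
      intro h12
      apply hjj
      have h13 : (j.2 : ℕ) = r0 := by
        rw [hnr, Nat.mod_eq_of_lt r0.2, Nat.mod_eq_of_lt j.2.2] at h12
        exact h12.symm
      exact Prod.ext h11 (Fin.ext h13)
    · rw [map_zero]
  · intro h
    exact absurd (Finset.mem_univ _) h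

end Pool.Agent.R498.AU
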