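import Pool.Agent.R498.AU.A3
import Pool.Agent.Y627.PT.Main

set_option autoImplicit false

/-!
# The pattern lemma (after `Y627/PT/Lf`) and the main theorem (after `Y627/PT/Main`)
-/

namespace Pool.Agent.R498.AU

open PowerSeries Pool.Agent.TH693.PP Pool.Agent.TH693.QQ Pool.Agent.H397R2.PP
open Pool.Agent.Y517.PT Pool.Agent.Y627.PT

/-- the pattern lemma, with coefficients of which only some are required to be nonzero -/
theorem pat {J : Type} [Fintype J] (good : J → Prop) (f : J → S) (M : ℕ) (hM : 0 < M)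
    (hLF : LFor (fun j : J × Fin M => proj M j.2 (f j.1)))
    (hLIN : ∀ (a : J × Fin M → F) (b : F),
      ∑ j : J × Fin M, io (a j) * proj M j.2 (f j.1) + io b = 0 →
      ∀ j : J × Fin M, good j.1 → proj M j.2 (f j.1) ≠ 0 → a j = 0) :
    ∃ C : ℕ, ∀ (L : ℕ) (c : J → Fin (L + 1) → ZMod 2) (ρ : ℕ),
      (∃ t i, good t ∧ c t i ≠ 0 ∧ proj M (ρ + i) (f t) ≠ 0) → ∀ (κ : ZMod 2) (A : ℕ),
      ∃ n, A ≤ n ∧ n ≤ C * (A + L + 1) ∧ n % M = ρ % M ∧
        ∑ t, ∑ i : Fin (L + 1), c t i * coeff (n + i) (f t) = κ := by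
  classical
  obtain ⟨C, hC⟩ := hLF
  refine ⟨C * (M + 1), fun L c ρ hc κ A => ?_⟩
  by_contra hcon
  push Not at hcon
  have h1 : ∀ a b : ZMod 2, a ≠ b → a = b + 1 := by decide
  set B := C * (M + 1) * (A + L + 1) with hB
  have hrun : ∀ n, A ≤ n → n ≤ B → n % M = ρ % M →
      ∑ t, ∑ i : Fin (L + 1), c t i * coeff (n + i) (f t) = κ + 1 :=
    fun n h2 h3 h4 => h1 _ _ (hcon n h2 h3 h4)
  -- the coefficients
  set a : J × Fin M → F := fun j => ∑ i : Fin (L + 1), if (ρ + i) % M = j.2 then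
    Polynomial.C (c j.1 i) * Polynomial.X ^ (L - i) else 0 with ha
  set l0 : S := ∑ j : J × Fin M, io (a j) * proj M j.2 (f j.1) with hl0
  have hco : ∀ n, coeff (n + L) l0 = if n % M = ρ % M then
      ∑ t, ∑ i : Fin (L + 1), c t i * coeff (n + i) (f t) else 0 := by
    intro n
    have e1 : ∀ j : J × Fin M, coeff (n + L) (io (a j) * proj M j.2 (f j.1)) =
        ∑ i : Fin (L + 1), if (ρ + i) % M = j.2 then
          c j.1 i * coeff (n + i) (proj M j.2 (f j.1)) else 0 := by
      intro j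
      rw [ha]
      simp only [map_sum, Finset.sum_mul]
      refine Finset.sum_congr rfl fun i _ => ?_
      split_ifs with h2
      · have h4 : io (Polynomial.C (c j.1 i) * Polynomial.X ^ (L - (i : ℕ))) =
            algebraMap (ZMod 2) S (c j.1 i) * X ^ (L - (i : ℕ)) := by
          rw [map_mul, map_pow, QE2.io_X, QE2.io_C]
        have h3 : n + L = (n + i) + (L - i) := by have := i.2; omega
        rw [h4, mul_assoc, h3, ← Algebra.smul_def, map_smul, PowerSeries.coeff_X_pow_mul,
          smul_eq_mul]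
      · rw [map_zero, zero_mul, map_zero]
    rw [hl0, map_sum, Finset.sum_congr rfl fun j _ => e1 j, Fintype.sum_prod_type]
    have e2 : ∀ t : J, ∑ r : Fin M, ∑ i : Fin (L + 1), (if (ρ + i) % M = (r : ℕ) then
        c t i * coeff (n + i) (proj M r (f t)) else 0) =
        ∑ i : Fin (L + 1), if n % M = ρ % M then c t i * coeff (n + i) (f t) else 0 := by
      intro t
      rw [Finset.sum_comm]
      refine Finset.sum_congr rfl fun i _ => ?_
      have hlt : (ρ + i) % M < M := Nat.mod_lt _ hM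
      rw [Finset.sum_eq_single (⟨(ρ + i) % M, hlt⟩ : Fin M)]
      · rw [if_pos rfl]
        unfold proj
        rw [coeff_mk]
        simp only [Nat.mod_mod]
        by_cases h2 : n % M = ρ % M
        · have h3 : (n + (i : ℕ)) % M = (ρ + i) % M := Nat.ModEq.add_right _ h2
          rw [if_pos h2, if_pos h3]
        · have h3 : ¬ (n + (i : ℕ)) % M = (ρ + i) % M := fun h3 =>
            h2 (Nat.ModEq.add_right_cancel' _ h3)
          rw [if_neg h2, if_neg h3, mul_zero]
      · intro r _ hr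
        rw [if_neg]
        intro h2
        exact hr (Fin.ext h2.symm)
      · intro h2
        exact absurd (Finset.mem_univ _) h2
    rw [Finset.sum_congr rfl fun t _ => e2 t]
    split_ifs
    · rfl
    · simp
  set U : F := 1 + Polynomial.X ^ M with hU
  have hU0 : U ≠ 0 := by
    intro h0
    have h1 := congrArg (fun g : F => g.coeff 0) h0
    simp only [hU, Polynomial.coeff_add, Polynomial.coeff_one, Polynomial.coeff_X_pow, hM.ne,
      if_true, if_false, add_zero, Polynomial.coeff_zero] at h1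
    exact one_ne_zero h1
  have hUd : U.natDegree ≤ M := by
    refine (Polynomial.natDegree_add_le _ _).trans (max_le (by simp) ?_)
    exact (Polynomial.natDegree_X_pow_le M)
  set g : S := io U * l0 with hg
  set b : F := PowerSeries.trunc (A + M + L) g with hb
  set a' : J × Fin M → F := fun j => U * a j with ha'
  have hlam : ∑ j : J × Fin M, io (a' j) * proj M j.2 (f j.1) + io b = g + io b := by
    rw [hg, hl0, Finset.mul_sum]
    congr 1
    refine Finset.sum_congr rfl fun j _ => ?_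
    rw [ha', map_mul, mul_assoc]
  have had : ∀ j, (a j).natDegree ≤ L := by
    intro j
    refine Polynomial.natDegree_sum_le_of_forall_le _ _ fun i _ => ?_
    split_ifs
    · refine (Polynomial.natDegree_C_mul_X_pow_le _ _).trans (Nat.sub_le _ _)
    · simp
  have ha'd : ∀ j, (a' j).natDegree ≤ A + M + L := by
    intro j
    refine Polynomial.natDegree_mul_le.trans ?_
    have := had j
    omega
  have hbd : b.natDegree ≤ A + M + L := by
    obtain ⟨q, hq⟩ : ∃ q, A + M + L = q + 1 := ⟨A + M + L - 1, by omega⟩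
    rw [hb, hq]
    exact (PowerSeries.natDegree_trunc_lt g q).le
  have hne : ∑ j : J × Fin M, io (a' j) * proj M j.2 (f j.1) + io b ≠ 0 := by
    intro h0
    obtain ⟨t, i, hgt, hci, hpi⟩ := hc
    have hlt : (ρ + i) % M < M := Nat.mod_lt _ hM
    have hpe : proj M (ρ + i) (f t) = proj M ((ρ + i) % M) (f t) := by
      unfold proj
      simp only [Nat.mod_mod]
    have h2 := hLIN a' b h0 (t, ⟨(ρ + i) % M, hlt⟩) hgt (by
      rw [hpe] at hpi
      exact hpi)
    have h3 : a (t, ⟨(ρ + i) % M, hlt⟩) = 0 := (mul_eq_zero.1 h2).resolve_left hU0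
    have h4 := congrArg (fun q : F => q.coeff (L - i)) h3
    simp only [ha, Polynomial.finsetSum_coeff, Polynomial.coeff_zero] at h4
    rw [Finset.sum_eq_single i] at h4
    · rw [if_pos rfl, Polynomial.coeff_C_mul, Polynomial.coeff_X_pow, if_pos rfl, mul_one] at h4
      exact hci h4
    · intro i' _ hi'
      split_ifs
      · rw [Polynomial.coeff_C_mul, Polynomial.coeff_X_pow, if_neg, mul_zero]
        intro h5
        apply hi'
        have q1 := i.2
        have q2 := i'.2
        exact Fin.ext (by omega)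
      · rw [Polynomial.coeff_zero]
    · intro h5
      exact absurd (Finset.mem_univ _) h5
  have hdvd : (X : S) ^ (B + L + 1) ∣ ∑ j : J × Fin M, io (a' j) * proj M j.2 (f j.1) + io b := by
    rw [hlam, PowerSeries.X_pow_dvd_iff]
    intro m hm
    rw [map_add, show coeff m (io b) = coeff m (b : S) from rfl, Polynomial.coeff_coe, hb,
      PowerSeries.coeff_trunc]
    split_ifs with h2
    · exact (by decide : ∀ a : ZMod 2, a + a = 0) _
    · rw [add_zero]
      obtain ⟨n, rfl⟩ : ∃ n, m = n + M + L := ⟨m - M - L, by omega⟩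
      have e : g = l0 + X ^ M * l0 := by
        rw [hg, hU, map_add, map_one, map_pow, QE2.io_X]
        ring
      have e3 : n + M + L = (n + L) + M := by ring
      rw [e, map_add]
      conv_lhs =>
        congr
        · rw [hco]
        · rw [e3, PowerSeries.coeff_X_pow_mul, hco]
      rw [Nat.add_mod_right]
      split_ifs with h5
      · rw [hrun n (by omega) (by omega) h5, hrun (n + M) (by omega) (by omega)
          (by rw [Nat.add_mod_right]; exact h5)]
        exact (by decide : ∀ a : ZMod 2, a + a = 0) _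
      · rw [add_zero]
  have h3 := hC (A + M + L) a' b ha'd hbd hne _ hdvd
  have h4 : C * (A + M + L + 1) ≤ C * (M + 1) * (A + L + 1) := by
    rw [mul_assoc]
    refine Nat.mul_le_mul_left _ ?_
    nlinarith [Nat.zero_le (M * A), Nat.zero_le (M * L)]
  omega


/-- linear forms in functions `g` such that the `g(X ^ B)` are algebraic over `F_2(X, D)` -/
theorem lfor_ex {I : Type} [Fintype I] (g : I → S) (B : ℕ) (hB0 : B ≠ 0)
    (hg : ∀ i, AlgOver Db (ex B hB0 (g i))) : LFor g := by
  have hX : ex B hB0 X = X ^ B := PowerSeries.expand_X B hB0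
  obtain ⟨C, hC⟩ := lf Pool.Agent.Y38.PT6.clo mtDb (fun i => ex B hB0 (g i)) hg
  refine ⟨C, fun h c d hc hd hne N hN => ?_⟩
  have h2 : ∑ j, io (Polynomial.expand (ZMod 2) B (c j)) * ex B hB0 (g j) +
      io (Polynomial.expand (ZMod 2) B d) = ex B hB0 (∑ j, io (c j) * g j + io d) := by
    rw [map_add, map_sum, ex_io]
    congr 1
    refine Finset.sum_congr rfl fun j _ => ?_
    rw [map_mul, ex_io]
  have h3 := hC (B * h) (fun j => Polynomial.expand (ZMod 2) B (c j))
    (Polynomial.expand (ZMod 2) B d)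
    (fun j => by rw [Polynomial.natDegree_expand, mul_comm]; exact Nat.mul_le_mul_left _ (hc j))
    (by rw [Polynomial.natDegree_expand, mul_comm]; exact Nat.mul_le_mul_left _ hd)
    (by
      rw [h2]
      intro h4
      exact hne (ex_inj B hB0 (h4.trans (map_zero _).symm)))
    (B * N) (by
      rw [h2]
      obtain ⟨w, hw⟩ := hN
      refine ⟨ex B hB0 w, ?_⟩
      rw [pow_mul, ← hX, ← map_pow, ← map_mul]
      exact congrArg _ hw)
  have hBp : 0 < B := Nat.pos_of_ne_zero hB0
  have h5 : B * N ≤ B * (C * (h + 1)) := by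
    refine h3.trans ?_
    have : C * (B * h + 1) ≤ C * (B * h + B) := Nat.mul_le_mul_left _ (by omega)
    refine this.trans (le_of_eq ?_)
    ring
  exact Nat.le_of_mul_le_mul_left h5 hBp

theorem algOver_fn {G : S} {τ : ℤ} (hG : Sec G τ) (m i B M ρ : ℕ) (hB0 : B ≠ 0) (hm : m ∣ B)
    (hi : i < m) (hM : 0 < M) : AlgOver Db (ex B hB0 (proj M ρ (fn G m i))) := by
  obtain ⟨e, he⟩ := hm
  have he0 : e ≠ 0 := by rintro rfl; exact hB0 (by rw [he, mul_zero])
  have h2 := fn_rel G m i e ρ M B (by rw [he]; ring) hB0 he0 hi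
  have h3 : AZ (T5.jj (ex e he0 (proj (m * M) (m * ρ + i) G))) (e * τ) :=
    az_ex he0 (hG _ _ (Nat.mul_pos (by omega) hM))
  have h4 := mem_of_az h3
  rw [← h2, map_mul, map_pow] at h4
  apply T5.algOver_of_mem
  have h5 : T5.jj X ^ (i * e) ∈ QE2.cl (ZMod 2) {T5.jj X, T5.jj Db} :=
    QE2.pow_mem' (QE2.self_mem (by simp)) _
  have h6 := QE2.mul_mem' h4 (QE2.inv_mem' h5)
  rwa [mul_comm, ← mul_assoc, inv_mul_cancel₀ (pow_ne_zero _ xx_ne), one_mul] at h6

theorem algOver_of_algX {g : S} (h : AlgX g) : AlgOver Db g :=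
  T5.algOver_of_mem (QE2.cl_mono (by simp) (T5.mem_of_algX h))

/-- the condition on the exponents -/
theorem exp_sep {Y : Type} (τ : Y → ℤ) (m : Y → ℕ) (hm : ∀ x, 0 < m x) (x : Y)
    (hd : ∀ y, x ≠ y → ¬ (24 : ℤ) ∣ τ x * (m y / Nat.gcd (m x) (m y) : ℕ) -
      τ y * (m x / Nat.gcd (m x) (m y) : ℕ)) (i : Fin (m x)) (j' : (x : Y) × Fin (m x))
    (h : (24 * m x * m j'.1 : ℤ) ∣
      m j'.1 * (τ x - 24 * (i : ℕ)) - m x * (τ j'.1 - 24 * (j'.2 : ℕ))) :
    (⟨x, i⟩ : (x : Y) × Fin (m x)) = j' := by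
  obtain ⟨y, i'⟩ := j'
  simp only at h
  by_cases hxy : x = y
  · subst hxy
    obtain ⟨k, hk⟩ := h
    have hmz : (m x : ℤ) ≠ 0 := by exact_mod_cast (hm x).ne'
    have h1 : ((i' : ℕ) : ℤ) - (i : ℕ) = m x * k := by
      apply mul_left_cancel₀ (mul_ne_zero (by norm_num : (24 : ℤ) ≠ 0) hmz)
      linear_combination hk
    have h2 : k = 0 := by
      by_contra hne
      have h8 : 1 ≤ |k| := Int.one_le_abs hne
      have h9 : |((i' : ℕ) : ℤ) - (i : ℕ)| < m x := by
        have q1 := i.2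
        have q2 := i'.2
        rw [abs_lt]
        constructor <;> omega
      rw [h1, abs_mul, Nat.abs_cast] at h9
      nlinarith
    rw [h2, mul_zero] at h1
    have h3 : i = i' := Fin.ext (by omega)
    rw [h3]
  · exfalso
    apply hd y hxy
    set g := Nat.gcd (m x) (m y) with hg
    have hg0 : 0 < g := Nat.gcd_pos_of_pos_left _ (hm x)
    obtain ⟨α, hα⟩ := Nat.gcd_dvd_left (m x) (m y)
    obtain ⟨β, hβ⟩ := Nat.gcd_dvd_right (m x) (m y)
    rw [← hg] at hα hβ
    have e1 : m x / g = α := by rw [hα, Nat.mul_div_cancel_left _ hg0]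
    have e2 : m y / g = β := by rw [hβ, Nat.mul_div_cancel_left _ hg0]
    rw [e1, e2]
    obtain ⟨k, hk⟩ := h
    have a1 : (m x : ℤ) = g * α := by exact_mod_cast hα
    have a2 : (m y : ℤ) = g * β := by exact_mod_cast hβ
    have hgz : (g : ℤ) ≠ 0 := by exact_mod_cast hg0.ne'
    rw [a1, a2] at hk
    have h1 : (β : ℤ) * (τ x - 24 * (i : ℕ)) - α * (τ y - 24 * (i' : ℕ)) =
        24 * (g * α * β * k) := by
      apply mul_left_cancel₀ hgz
      linear_combination hk
    exact ⟨β * (i : ℕ) - α * (i' : ℕ) + g * α * β * k, by linear_combination h1⟩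

/-- **the main theorem** -/
theorem main {Y Z : Type} [Fintype Y] [Fintype Z] (G : Y → S) (τ : Y → ℤ)
    (hG : ∀ x, Sec (G x) (τ x)) (m : Y → ℕ) (hm : ∀ x, 0 < m x) (M : ℕ) (hM : 0 < M)
    (u : Z → S) (hu : ∀ z r, AlgX (proj M r (u z))) :
    ∃ C : ℕ, ∀ (K : ℕ) (c : Y → ℕ → ZMod 2) (d : Z → ℕ → ZMod 2) (ρ : ℕ),
      (∃ x, ¬ (24 : ℤ) ∣ τ x ∧
        (∀ y, x ≠ y → ¬ (24 : ℤ) ∣ τ x * (m y / Nat.gcd (m x) (m y) : ℕ) -
          τ y * (m x / Nat.gcd (m x) (m y) : ℕ)) ∧
        ∃ i < K, c x i ≠ 0 ∧ proj (m x * M) (m x * ρ + i) (G x) ≠ 0) →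
      ∀ (κ : ZMod 2) (A : ℕ), ∃ n, A ≤ n ∧ n ≤ C * (A + K) ∧ n % M = ρ % M ∧
        ∑ x, ∑ i ∈ Finset.range K, c x i * coeff (m x * n + i) (G x) +
          ∑ z, ∑ i ∈ Finset.range K, d z i * coeff (n + i) (u z) = κ := by
  classical
  set B : ℕ := ∏ x, m x with hB
  have hB0 : B ≠ 0 := Finset.prod_ne_zero_iff.2 fun x _ => (hm x).ne'
  have hmB : ∀ x, m x ∣ B := fun x => Finset.dvd_prod_of_mem m (Finset.mem_univ x)
  set f : ((x : Y) × Fin (m x)) ⊕ Z → S :=
    Sum.elim (fun j => fn (G j.1) (m j.1) j.2) u with hf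
  set good : ((x : Y) × Fin (m x)) ⊕ Z → Prop := Sum.elim (fun j => ¬ (24 : ℤ) ∣ τ j.1 ∧
    ∀ y, j.1 ≠ y → ¬ (24 : ℤ) ∣ τ j.1 * (m y / Nat.gcd (m j.1) (m y) : ℕ) -
          τ y * (m j.1 / Nat.gcd (m j.1) (m y) : ℕ)) (fun _ => False) with hgood
  obtain ⟨C, hC⟩ := pat good f M hM
    (by
      refine lfor_ex _ B hB0 ?_
      rintro ⟨j | z, r⟩
      · exact algOver_fn (hG j.1) (m j.1) j.2 B M r hB0 (hmB j.1) j.2.2 hM
      · exact algOver_of_algX (algX_ex hB0 (hu z r)))
    (by
      rintro a b hrel ⟨j | z, r⟩ hgj hne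
      · obtain ⟨g1, g2⟩ := hgj
        have h1 : ∑ j : ((x : Y) × Fin (m x)) × Fin M, io (a (Sum.inl j.1, j.2)) *
            proj M j.2 (fn (G j.1.1) (m j.1.1) j.1.2) =
            ∑ z : Z × Fin M, io (a (Sum.inr z.1, z.2)) * proj M z.2 (u z.1) + io b := by
          rw [Fintype.sum_prod_type, Fintype.sum_sum_type] at hrel
          rw [Fintype.sum_prod_type, Fintype.sum_prod_type]
          have h2 : ∀ p q s : S, p + q + s = 0 → p = q + s := by
            intro p q s h
            have h3 : p + (q + s) = 0 := by rw [← add_assoc]; exact h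
            linear_combination h3 - (q + s) * two_zero
          exact h2 _ _ _ hrel
        exact lin_gen (fun j : (x : Y) × Fin (m x) => G j.1) (fun j => τ j.1)
          (fun j => hG j.1) (fun j => m j.1) (fun j => j.2) B M hB0 (fun j => hmB j.1)
          (fun j => j.2.2) hM j g1 (fun j' h => exp_sep τ m hm j.1 g2 j.2 j' h)
          (fun j => a (Sum.inl j.1, j.2)) _
          (algX_add (algX_sum _ _ fun z _ => algX_mul (algX_io _) (hu z.1 z.2)) (algX_io b))
          h1 r hne
      · exact absurd hgj id)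
  refine ⟨2 * C, fun K c d ρ hc κ A => ?_⟩
  set c' : ((x : Y) × Fin (m x)) ⊕ Z → Fin (K + 1) → ZMod 2 := Sum.elim (fun j l =>
    if m j.1 * l + j.2 < K then c j.1 (m j.1 * l + j.2) else 0)
    (fun z l => if (l : ℕ) < K then d z l else 0) with hc'
  have hK : 0 < K := by
    obtain ⟨_, _, _, i0, hi0, -⟩ := hc
    omega
  obtain ⟨n, h1, h2, h4, h5⟩ := hC K c' ρ (by
    obtain ⟨x, g1, g2, i0, hi0, hne, hpr⟩ := hc
    have hlt := Nat.mod_lt i0 (hm x)
    have hdm := Nat.div_add_mod i0 (m x)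
    have hle := Nat.div_le_self i0 (m x)
    refine ⟨Sum.inl ⟨x, ⟨i0 % m x, hlt⟩⟩, ⟨i0 / m x, by omega⟩, ⟨g1, g2⟩, ?_, ?_⟩
    · rw [hc']
      simp only [Sum.elim_inl]
      rw [hdm, if_pos hi0]
      exact hne
    · rw [hf]
      simp only [Sum.elim_inl]
      intro h0
      apply hpr
      obtain ⟨e, he⟩ := hmB x
      have he0 : e ≠ 0 := by rintro rfl; exact hB0 (by rw [he, mul_zero])
      have h6 := fn_rel (G x) (m x) (i0 % m x) e (ρ + i0 / m x) M B (by rw [he]; ring) hB0 he0 hlt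
      rw [h0, map_zero, mul_zero] at h6
      have h7 := ex_inj e he0 ((map_zero (ex e he0)).trans h6)
      have h8 : m x * (ρ + i0 / m x) + i0 % m x = m x * ρ + i0 := by rw [mul_add]; omega
      rw [h8] at h7
      exact h7.symm) κ A
  refine ⟨n, h1, ?_, h4, ?_⟩
  · refine h2.trans ?_
    have : C * (A + K + 1) ≤ C * (2 * (A + K)) := Nat.mul_le_mul_left _ (by omega)
    refine this.trans (le_of_eq ?_)
    ring
  · rw [← h5, Fintype.sum_sum_type, Fintype.sum_sigma]
    congr 1
    · refine Finset.sum_congr rfl fun x _ => ?_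
      rw [← sum_split (m x) K (hm x) (fun i => c x i * coeff (m x * n + i) (G x)), Finset.sum_range]
      refine Finset.sum_congr rfl fun i0 _ => ?_
      rw [Finset.sum_range]
      refine Finset.sum_congr rfl fun l _ => ?_
      rw [hc', hf]
      simp only [Sum.elim_inl]
      rw [fn, coeff_mk]
      rw [show m x * (n + (l : ℕ)) + (i0 : ℕ) = m x * n + (m x * l + i0) by ring]
      split_ifs
      · rfl
      · rw [zero_mul]
    · refine Finset.sum_congr rfl fun z _ => ?_
      rw [hc', hf]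
      simp only [Sum.elim_inr]
      rw [Fin.sum_univ_castSucc, Finset.sum_range]
      simp only [Fin.val_castSucc, Fin.val_last, lt_irrefl, if_false, zero_mul, add_zero]
      refine Finset.sum_congr rfl fun l _ => ?_
      rw [if_pos l.2]

end Pool.Agent.R498.AU
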