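import Pool.Agent.R498.AU.A4

set_option autoImplicit false

/-!
# 2-automatic sequences (sequences with finite 2-kernel) are algebraic over `F_2(X)`
-/

namespace Pool.Agent.R498.AU

open PowerSeries Pool.Agent.TH693.PP Pool.Agent.TH693.QQ Pool.Agent.H397R2.PP
open Pool.Agent.Y517.PT Pool.Agent.Y627.PT

/-- the 2-kernel of a sequence -/
def ker2 (u : ℕ → ZMod 2) : Set (ℕ → ZMod 2) :=
  {v | ∃ k r : ℕ, r < 2 ^ k ∧ v = fun n => u (2 ^ k * n + r)}

theorem self_mem_ker2 (u : ℕ → ZMod 2) : u ∈ ker2 u := ⟨0, 0, by norm_num, by simp⟩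

theorem sec_mem_ker2 {u v : ℕ → ZMod 2} (hv : v ∈ ker2 u) (b : ℕ) (hb : b < 2) :
    (fun n => v (2 * n + b)) ∈ ker2 u := by
  obtain ⟨k, r, hr, rfl⟩ := hv
  refine ⟨k + 1, 2 ^ k * b + r, ?_, ?_⟩
  · rw [pow_succ]
    have : 2 ^ k * b ≤ 2 ^ k * 1 := Nat.mul_le_mul_left _ (by omega)
    omega
  · funext n
    change u (2 ^ k * (2 * n + b) + r) = u (2 ^ (k + 1) * n + (2 ^ k * b + r))
    congr 1
    ring

theorem frob_add (a b : S) (k : ℕ) : (a + b) ^ 2 ^ k = a ^ 2 ^ k + b ^ 2 ^ k := by
  rw [pow_two_expand, pow_two_expand, pow_two_expand, map_add]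

theorem mk_split (v : ℕ → ZMod 2) : (PowerSeries.mk v : S) =
    (PowerSeries.mk fun n => v (2 * n + 0)) ^ 2 + X * (PowerSeries.mk fun n => v (2 * n + 1)) ^ 2 := by
  have h1 : ∀ f : S, f ^ 2 = PowerSeries.expand 2 (by norm_num) f := by
    intro f
    have h2 : PowerSeries.expand 2 (by norm_num) f =
      PowerSeries.expand (2 ^ 1) (by positivity) f := rfl
    rw [h2, ← pow_two_expand 1 f, pow_one]
  rw [h1, h1]
  ext n
  rw [map_add, coeff_mk, PowerSeries.coeff_expand]
  rcases Nat.even_or_odd' n with ⟨k, rfl | rfl⟩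
  · rw [if_pos (Dvd.intro k rfl), Nat.mul_div_cancel_left k (by norm_num), coeff_mk, add_zero]
    cases k with
    | zero => simp
    | succ k =>
      rw [show 2 * (k + 1) = (2 * k + 1) + 1 by ring, PowerSeries.coeff_succ_X_mul,
        PowerSeries.coeff_expand, if_neg (by omega), add_zero]
  · rw [if_neg (by omega), zero_add, PowerSeries.coeff_succ_X_mul, PowerSeries.coeff_expand,
      if_pos (Dvd.intro k rfl), Nat.mul_div_cancel_left k (by norm_num), coeff_mk]

/-- `F`-module structure of `S` -/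
noncomputable local instance : Module F S := Module.compHom S io

theorem smul_eq (f : F) (s : S) : f • s = io f * s := rfl

theorem algX_of_ker2 {u : ℕ → ZMod 2} (hu : (ker2 u).Finite) : AlgX (PowerSeries.mk u) := by
  classical
  set K : Finset (ℕ → ZMod 2) := hu.toFinset with hK
  have hKm : ∀ v, v ∈ K ↔ v ∈ ker2 u := fun v => hu.mem_toFinset
  set N := K.card with hN
  set w : ℕ → Finset S := fun j => K.image fun v => (PowerSeries.mk v : S) ^ 2 ^ j with hw
  have hstep : ∀ (i : ℕ) (v : ℕ → ZMod 2), (PowerSeries.mk v : S) ^ 2 ^ i =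
      (PowerSeries.mk fun n => v (2 * n + 0)) ^ 2 ^ (i + 1) +
        io (Polynomial.X ^ 2 ^ i) * (PowerSeries.mk fun n => v (2 * n + 1)) ^ 2 ^ (i + 1) := by
    intro i v
    conv_lhs => rw [mk_split v]
    rw [frob_add, mul_pow, ← pow_mul, ← pow_mul, map_pow, QE2.io_X, ← pow_succ']
  have claim : ∀ k i : ℕ, ∀ v ∈ K, (PowerSeries.mk v : S) ^ 2 ^ i ∈
      Submodule.span F ((w (i + k) : Finset S) : Set S) := by
    intro k
    induction k with
    | zero =>
      intro i v hv
      apply Submodule.subset_span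
      rw [add_zero, hw]
      simp only [Finset.coe_image]
      exact ⟨v, hv, rfl⟩
    | succ k ih =>
      intro i v hv
      rw [hstep]
      have h0 : (fun n => v (2 * n + 0)) ∈ K :=
        (hKm _).2 (sec_mem_ker2 ((hKm v).1 hv) 0 (by norm_num))
      have h1 : (fun n => v (2 * n + 1)) ∈ K :=
        (hKm _).2 (sec_mem_ker2 ((hKm v).1 hv) 1 (by norm_num))
      rw [show i + (k + 1) = (i + 1) + k by ring]
      refine Submodule.add_mem _ (ih (i + 1) _ h0) ?_
      rw [← smul_eq]
      exact Submodule.smul_mem _ _ (ih (i + 1) _ h1)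
  have huK : u ∈ K := (hKm u).2 (self_mem_ker2 u)
  have hdep : ¬ LinearIndependent F (fun i : Fin (N + 1) => (PowerSeries.mk u : S) ^ 2 ^ (i : ℕ)) := by
    intro hli
    have h1 := linearIndependent_le_span' _ hli ((w N : Finset S) : Set S) (by
      rintro _ ⟨i, rfl⟩
      have h2 := claim (N - i) i u huK
      rwa [Nat.add_sub_cancel' (by have := i.2; omega)] at h2)
    rw [Cardinal.mk_fin] at h1
    have h2 : N + 1 ≤ Fintype.card ((w N : Finset S) : Set S) := by exact_mod_cast h1
    have h3 : Fintype.card ((w N : Finset S) : Set S) ≤ N := by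
      simp only [Finset.coe_sort_coe, Fintype.card_coe]
      exact Finset.card_image_le
    omega
  obtain ⟨g, hg, i0, hi0⟩ := Fintype.not_linearIndependent_iff.1 hdep
  refine ⟨∑ i : Fin (N + 1), Polynomial.C (g i) * Polynomial.X ^ 2 ^ (i : ℕ), ?_, ?_⟩
  · intro h0
    have h1 := congrArg (fun p : Polynomial F => p.coeff (2 ^ (i0 : ℕ))) h0
    simp only [Polynomial.finsetSum_coeff, Polynomial.coeff_C_mul, Polynomial.coeff_X_pow,
      Polynomial.coeff_zero] at h1
    rw [Finset.sum_eq_single i0] at h1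
    · rw [if_pos rfl, mul_one] at h1
      exact hi0 h1
    · intro i _ hne
      rw [if_neg, mul_zero]
      intro h2
      exact hne (Fin.ext (Nat.pow_right_injective le_rfl h2).symm)
    · intro h2
      exact absurd (Finset.mem_univ _) h2
  · rw [map_sum, ← hg]
    refine Finset.sum_congr rfl fun i _ => ?_
    rw [map_mul, map_pow, QE2.evp_C, QE2.evp_X]
    rfl

/-- restriction to a residue class -/
theorem ker2_proj {u : ℕ → ZMod 2} (hu : (ker2 u).Finite) (M r : ℕ) (hM : 0 < M) :
    (ker2 fun n => if n % M = r % M then u n else 0).Finite := by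
  classical
  refine (Set.Finite.image2 (fun (p : ℕ × ℕ) (v : ℕ → ZMod 2) => fun n =>
    if (p.1 * n + p.2) % M = r % M then v n else 0)
    ((Finset.range M ×ˢ Finset.range M).finite_toSet) hu).subset ?_
  rintro _ ⟨k, s, hs, rfl⟩
  refine ⟨(2 ^ k % M, s % M), ?_, fun n => u (2 ^ k * n + s), ⟨k, s, hs, rfl⟩, ?_⟩
  · rw [Finset.mem_coe, Finset.mem_product, Finset.mem_range, Finset.mem_range]
    exact ⟨Nat.mod_lt _ hM, Nat.mod_lt _ hM⟩
  · funext n
    simp only
    have h1 : (2 ^ k % M * n + s % M) % M = (2 ^ k * n + s) % M := by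
      conv_rhs => rw [Nat.add_mod, Nat.mul_mod]
      conv_lhs => rw [Nat.add_mod, Nat.mul_mod]
      simp only [Nat.mod_mod]
    rw [h1]

theorem algX_proj {u : ℕ → ZMod 2} (hu : (ker2 u).Finite) (M r : ℕ) (hM : 0 < M) :
    AlgX (proj M r (PowerSeries.mk u)) := by
  have h1 : proj M r (PowerSeries.mk u : S) =
      PowerSeries.mk fun n => if n % M = r % M then u n else 0 := by
    ext n
    rw [proj, coeff_mk, coeff_mk, coeff_mk]
  rw [h1]
  exact algX_of_ker2 (ker2_proj hu M r hM)

end Pool.Agent.R498.AU
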