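import Pool.Agent.R498.AU.A5
import Mathlib.Data.Nat.Bits

set_option autoImplicit false

/-!
# Finite automata with a bounded number of states
-/

namespace Pool.Agent.R498.AU

open PowerSeries Pool.Agent.TH693.PP Pool.Agent.TH693.QQ Pool.Agent.H397R2.PP
open Pool.Agent.Y517.PT Pool.Agent.Y627.PT

theorem ker2_finite {𝒰 : Set (ℕ → ZMod 2)} (hf : 𝒰.Finite)
    (h : ∀ v ∈ 𝒰, ∀ b < 2, (fun n => v (2 * n + b)) ∈ 𝒰) {u : ℕ → ZMod 2} (hu : u ∈ 𝒰) :
    (ker2 u).Finite := by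
  refine hf.subset ?_
  rintro _ ⟨k, r, hr, rfl⟩
  induction k generalizing r with
  | zero =>
    have h1 : r = 0 := by
      rw [pow_zero] at hr
      omega
    subst h1
    simpa using hu
  | succ k ih =>
    have hpos : 0 < 2 ^ k := by positivity
    have h1 := h _ (ih (r % 2 ^ k) (Nat.mod_lt _ hpos)) (r / 2 ^ k)
      (by rw [Nat.div_lt_iff_lt_mul hpos, ← pow_succ']; exact hr)
    convert h1 using 1
    funext n
    congr 1
    have h2 := Nat.div_add_mod r (2 ^ k)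
    rw [pow_succ]
    have h3 : 2 ^ k * (2 * n + r / 2 ^ k) + r % 2 ^ k =
      2 ^ k * 2 * n + (2 ^ k * (r / 2 ^ k) + r % 2 ^ k) := by ring
    rw [h3, h2]

theorem bits_two {n b : ℕ} (hn : n ≠ 0) (hb : b < 2) :
    (2 * n + b).bits = decide (b = 1) :: n.bits := by
  interval_cases b
  · rw [add_zero, Nat.bit0_bits n hn]
    rfl
  · rw [Nat.bit1_bits]
    rfl

theorem ker2_lsb {s : ℕ} (δ : Fin s → Bool → Fin s) (q : Fin s) (h : Fin s → ZMod 2) :
    (ker2 fun n => h (n.bits.foldl δ q)).Finite := by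
  refine ker2_finite (𝒰 := Set.range fun (p : Fin s × ZMod 2) => fun n : ℕ =>
    if n = 0 then p.2 else h (n.bits.foldl δ p.1)) (Set.finite_range _) ?_
    ⟨(q, h q), ?_⟩
  · rintro _ ⟨p, rfl⟩ b hb
    refine ⟨(δ p.1 (decide (b = 1)), if b = 0 then p.2 else h (b.bits.foldl δ p.1)), ?_⟩
    funext n
    simp only
    by_cases hn : n = 0
    · subst hn
      rw [if_pos rfl, mul_zero, zero_add]
    · rw [if_neg hn, if_neg (by omega), bits_two hn hb]
      rfl
  · funext n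
    simp only
    by_cases hn : n = 0
    · subst hn
      rw [if_pos rfl, Nat.zero_bits]
      rfl
    · rw [if_neg hn]

theorem ker2_msb {s : ℕ} (δ : Fin s → Bool → Fin s) (q : Fin s) (h : Fin s → ZMod 2) :
    (ker2 fun n => h (n.bits.reverse.foldl δ q)).Finite := by
  refine ker2_finite (𝒰 := Set.range fun (p : (Fin s → ZMod 2) × ZMod 2) => fun n : ℕ =>
    if n = 0 then p.2 else p.1 (n.bits.reverse.foldl δ q)) (Set.finite_range _) ?_
    ⟨(h, h q), ?_⟩
  · rintro _ ⟨p, rfl⟩ b hb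
    refine ⟨(fun x => p.1 (δ x (decide (b = 1))),
      if b = 0 then p.2 else p.1 (b.bits.reverse.foldl δ q)), ?_⟩
    funext n
    simp only
    by_cases hn : n = 0
    · subst hn
      rw [if_pos rfl, mul_zero, zero_add]
    · rw [if_neg hn, if_neg (by omega), bits_two hn hb, List.reverse_cons, List.foldl_append]
      rfl
  · funext n
    simp only
    by_cases hn : n = 0
    · subst hn
      rw [if_pos rfl, Nat.zero_bits]
      rfl
    · rw [if_neg hn]

/-- codes of automata with at most `S` states -/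
abbrev Code (S : ℕ) : Type := (s : Fin (S + 1)) ×
  (Bool × (Fin (s : ℕ) → Bool → Fin (s : ℕ)) × Fin (s : ℕ) × (Fin (s : ℕ) → ZMod 2))

/-- the output -/
def run {S : ℕ} (c : Code S) (n : ℕ) : ZMod 2 :=
  if c.2.1 then c.2.2.2.2 (n.bits.reverse.foldl c.2.2.1 c.2.2.2.1)
    else c.2.2.2.2 (n.bits.foldl c.2.2.1 c.2.2.2.1)

theorem ker2_run {S : ℕ} (c : Code S) : (ker2 (run c)).Finite := by
  obtain ⟨s, b, δ, q, h⟩ := c
  cases b
  · exact ker2_lsb δ q h
  · exact ker2_msb δ q h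

/-- `u` is computed by a finite automaton with at most `S` states which reads the binary digits of
`n`, starting from the least significant one or starting from the most significant one -/
def Automatic (S : ℕ) (u : ℕ → ZMod 2) : Prop :=
  ∃ (s : ℕ) (δ : Fin s → Bool → Fin s) (q : Fin s) (h : Fin s → ZMod 2), s ≤ S ∧
    ((∀ n, u n = h (n.bits.foldl δ q)) ∨ (∀ n, u n = h (n.bits.reverse.foldl δ q)))

theorem exists_code {S : ℕ} {u : ℕ → ZMod 2} (hu : Automatic S u) :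
    ∃ c : Code S, ∀ n, u n = run c n := by
  obtain ⟨s, δ, q, h, hs, hor⟩ := hu
  rcases hor with h1 | h1
  · exact ⟨⟨⟨s, by omega⟩, false, δ, q, h⟩, fun n => h1 n⟩
  · exact ⟨⟨⟨s, by omega⟩, true, δ, q, h⟩, fun n => h1 n⟩

/-- **the main theorem with automata** -/
theorem main_aut {Y : Type} [Fintype Y] (G : Y → S) (τ : Y → ℤ)
    (hG : ∀ x, Sec (G x) (τ x)) (m : Y → ℕ) (hm : ∀ x, 0 < m x) (M : ℕ) (hM : 0 < M) (Q : ℕ) :
    ∃ C : ℕ, ∀ (K : ℕ) (c : Y → ℕ → ZMod 2) (ρ : ℕ),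
      (∃ x, ¬ (24 : ℤ) ∣ τ x ∧
        (∀ y, x ≠ y → ¬ (24 : ℤ) ∣ τ x * (m y / Nat.gcd (m x) (m y) : ℕ) -
          τ y * (m x / Nat.gcd (m x) (m y) : ℕ)) ∧
        ∃ i < K, c x i ≠ 0 ∧ proj (m x * M) (m x * ρ + i) (G x) ≠ 0) →
      ∀ (L : ℕ) (u : Fin L → ℕ → ZMod 2) (t : Fin L → ℕ), (∀ z, Automatic Q (u z)) →
        (∀ z, t z < K) →
      ∀ (κ : ZMod 2) (A : ℕ), ∃ n, A ≤ n ∧ n ≤ C * (A + K) ∧ n % M = ρ % M ∧
        ∑ x, ∑ i ∈ Finset.range K, c x i * coeff (m x * n + i) (G x) +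
          ∑ z, u z (n + t z) = κ := by
  classical
  obtain ⟨C, hC⟩ := main (Z := Code Q) G τ hG m hm M hM (fun z => PowerSeries.mk (run z))
    (fun z r => algX_proj (ker2_run z) M r hM)
  refine ⟨C, fun K c ρ hc L u t hu ht κ A => ?_⟩
  choose z hz using fun l => exists_code (hu l)
  obtain ⟨n, h1, h2, h3, h4⟩ := hC K c
    (fun w i => ∑ l : Fin L, if z l = w ∧ t l = i then 1 else 0) ρ hc κ A
  refine ⟨n, h1, h2, h3, ?_⟩
  rw [← h4]
  congr 1
  have e1 : ∀ w : Code Q, ∑ i ∈ Finset.range K,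
      (∑ l : Fin L, if z l = w ∧ t l = i then (1 : ZMod 2) else 0) *
        coeff (n + i) (PowerSeries.mk (run w) : S) =
      ∑ l : Fin L, ∑ i ∈ Finset.range K, if z l = w ∧ t l = i then run w (n + i) else 0 := by
    intro w
    rw [Finset.sum_comm]
    refine Finset.sum_congr rfl fun i _ => ?_
    rw [Finset.sum_mul]
    refine Finset.sum_congr rfl fun l _ => ?_
    rw [coeff_mk, ite_mul, one_mul, zero_mul]
  rw [Finset.sum_congr rfl fun w _ => e1 w, Finset.sum_comm]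
  refine Finset.sum_congr rfl fun l _ => ?_
  rw [Finset.sum_eq_single (z l), Finset.sum_eq_single (t l)]
  · rw [if_pos ⟨rfl, rfl⟩, hz]
  · intro i _ hne
    rw [if_neg]
    exact fun h => hne h.2.symm
  · intro h
    exact absurd (Finset.mem_range.2 (ht l)) h
  · intro w _ hne
    refine Finset.sum_eq_zero fun i _ => ?_
    rw [if_neg]
    exact fun h => hne h.1.symm
  · intro h
    exact absurd (Finset.mem_univ _) h

end Pool.Agent.R498.AU
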